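import Mathlib
import Pool.Agent.H857R2.NC.All

/-!
Azagra's question has a positive answer for every `k ≥ 2` (`k = ∞` included), and for `k = 1`
under additional hypotheses.
-/

set_option autoImplicit false

open Filter Topology Set ZeroAtInfty

universe u

namespace Pool.Agent.Results.MP_8d41d4_an.NoncompleteKGeTwo

variable {X : Type u} [NormedAddCommGroup X] [NormedSpace ℝ X]

/-- The seminorm `N` is a norm on `X` equivalent to the given norm. -/
def IsEquivalentNorm (N : Seminorm ℝ X) : Prop :=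
  (∃ a : ℝ, 0 < a ∧ ∀ x, a * ‖x‖ ≤ N x) ∧ ∃ b : ℝ, 0 < b ∧ ∀ x, N x ≤ b * ‖x‖

/-- `p` is a norm on the vector space `X` (not necessarily equivalent to the given one). -/
def IsNorm (p : Seminorm ℝ X) : Prop := ∀ x, p x = 0 → x = 0

/-- `p` is `C^k`-smooth (`k` a natural number or `∞`): its restriction to `X \ {0}` is `C^k` for
the topology of the given norm of `X`. -/
def IsSmooth (k : ℕ∞) (p : Seminorm ℝ X) : Prop := ContDiffOn ℝ k p {x | x ≠ 0}

/-- `(X, p)` is complete: every `p`-Cauchy sequence `p`-converges. -/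
def IsCompleteFor (p : Seminorm ℝ X) : Prop :=
  ∀ v : ℕ → X, (∀ ε : ℝ, 0 < ε → ∃ M, ∀ m ≥ M, ∀ n ≥ M, p (v m - v n) < ε) →
    ∃ x, ∀ ε : ℝ, 0 < ε → ∃ M, ∀ n ≥ M, p (v n - x) < ε

/-- The norm `M` is Frechet differentiable off the origin and its derivative is locally uniformly
continuous there. -/
def IsLocallyUniformlySmooth (M : Seminorm ℝ X) : Prop :=
  (∀ z, z ≠ 0 → DifferentiableAt ℝ M z) ∧
    ∀ x : X, x ≠ 0 → ∃ r > 0, UniformContinuousOn (fderiv ℝ M) (Metric.ball x r)

/-- `X` contains an isomorphic copy of `c_0`. -/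
def ContainsC0 (X : Type u) [NormedAddCommGroup X] [NormedSpace ℝ X] : Prop :=
  ∃ (J : C₀(ℕ, ℝ) →L[ℝ] X) (c : ℝ), 0 < c ∧ ∀ x, c * ‖x‖ ≤ ‖J x‖

/-- `X` is the direct topological sum of a separable infinite-dimensional closed subspace and
another closed subspace: there is a continuous projection with separable infinite-dimensional
range. -/
def HasSeparableProjection (X : Type u) [NormedAddCommGroup X] [NormedSpace ℝ X] : Prop :=
  ∃ P : X →L[ℝ] X, (∀ x, P (P x) = P x) ∧ TopologicalSpace.IsSeparable (Set.range P) ∧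
    ¬ FiniteDimensional ℝ (LinearMap.range (P : X →ₗ[ℝ] X))

/-- Let `X` be an infinite-dimensional Banach space with an equivalent `C^k`-smooth norm,
`1 ≤ k ≤ ∞`. If `k ≥ 2`, or `X` has some equivalent norm whose derivative is locally uniformly
continuous off the origin, or `X` contains an isomorphic copy of `c_0`, then
* `X` has an infinite-dimensional separable complemented subspace;
* there is an injective continuous linear `T : X → X` which is not bounded below, such that, for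
  every equivalent norm `N` and every `j` for which `N` is `C^j`-smooth, `N ∘ T` is a
  `C^j`-smooth norm on `X` which is not complete;
* in particular `X` has a `C^k`-smooth norm `p` such that `(X, p)` is not complete. -/
theorem result {X : Type u} [NormedAddCommGroup X] [NormedSpace ℝ X] [CompleteSpace X]
    (hX : ¬ FiniteDimensional ℝ X) (k : ℕ∞) (hk : 1 ≤ k)
    (hN : ∃ N : Seminorm ℝ X, IsEquivalentNorm N ∧ IsSmooth k N)
    (h : 2 ≤ k ∨ (∃ M : Seminorm ℝ X, IsEquivalentNorm M ∧ IsLocallyUniformlySmooth M) ∨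
      ContainsC0 X) :
    HasSeparableProjection X ∧
    (∃ T : X →L[ℝ] X, Function.Injective T ∧ (∀ a : ℝ, 0 < a → ∃ x, ‖T x‖ < a * ‖x‖) ∧
      ∀ N : Seminorm ℝ X, IsEquivalentNorm N → ∀ j : ℕ∞, IsSmooth j N →
        IsNorm (N.comp (T : X →ₗ[ℝ] X)) ∧ IsSmooth j (N.comp (T : X →ₗ[ℝ] X)) ∧
          ¬ IsCompleteFor (N.comp (T : X →ₗ[ℝ] X))) ∧
    ∃ p : Seminorm ℝ X, IsNorm p ∧ IsSmooth k p ∧ ¬ IsCompleteFor p := by
  obtain ⟨N, hN, hs⟩ := hN
  have conv : ∀ M : Seminorm ℝ X, IsEquivalentNorm M → H857NC.IsEquivNorm M :=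
    fun M hM => ⟨hM.2, hM.1⟩
  have hproj : H857NC.HasSepProj X := by
    rcases h with h | ⟨M, hM, hMd, hML⟩ | ⟨J, c, hc, hJ⟩
    · have hd := H857NC.diff_of_contDiffOn hk N hs
      have h2 : ContDiffOn ℝ 2 N {x | x ≠ 0} := hs.of_le (WithTop.coe_le_coe.2 h)
      exact H857NC.proj_of_locUC H857NC.all hX N (conv N hN) hd (H857NC.locUC_of_contDiff N h2)
    · exact H857NC.proj_of_locUC H857NC.all hX M (conv M hM) hMd hML
    · exact H857NC.caseA H857NC.all.sig H857NC.all.prj H857NC.all.sub H857NC.all.sup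
        H857NC.all.lim N (conv N hN) (H857NC.diff_of_contDiffOn hk N hs)
        (H857NC.hasC0Seq_of_embedding J c hc hJ)
  obtain ⟨T, hT, hTb⟩ := H857NC.exists_op H857NC.all.tot H857NC.all.bio H857NC.all.opt hproj
  have h0 : ∀ x, T x = 0 → x = 0 := fun x h => hT (by rw [h, map_zero])
  have key : ∀ N : Seminorm ℝ X, IsEquivalentNorm N → ∀ j : ℕ∞, IsSmooth j N →
        IsNorm (N.comp (T : X →ₗ[ℝ] X)) ∧ IsSmooth j (N.comp (T : X →ₗ[ℝ] X)) ∧
          ¬ IsCompleteFor (N.comp (T : X →ₗ[ℝ] X)) := by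
    intro N hN j hj
    have hN' := conv N hN
    have hn : ∀ x, N.comp (T : X →ₗ[ℝ] X) x = 0 → x = 0 := fun x hx => h0 x (hN'.eq_zero hx)
    refine ⟨hn, ?_, ?_⟩
    · have : (⇑(N.comp (T : X →ₗ[ℝ] X))) = N ∘ T := rfl
      unfold IsSmooth
      rw [this]
      refine ContDiffOn.comp hj T.contDiff.contDiffOn ?_
      intro x hx
      exact fun h => hx (h0 x h)
    · obtain ⟨b, hb, hub⟩ := hN'.upper
      obtain ⟨v, hv1, hv2⟩ := H857NC.all.nc X (N.comp (T : X →ₗ[ℝ] X)) hn
        ⟨b * ‖T‖, fun x => by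
          calc N (T x) ≤ b * ‖T x‖ := hub _
            _ ≤ b * (‖T‖ * ‖x‖) := by gcongr; exact T.le_opNorm x
            _ = b * ‖T‖ * ‖x‖ := by ring⟩
        (fun a ha => by
          obtain ⟨x, hx⟩ := hTb (a / b) (by positivity)
          refine ⟨x, ?_⟩
          calc N (T x) ≤ b * ‖T x‖ := hub _
            _ < b * (a / b * ‖x‖) := by gcongr
            _ = a * ‖x‖ := by field_simp)
      exact fun hc => hv2 (hc v hv1)
  refine ⟨hproj, ⟨T, hT, hTb, key⟩, ⟨N.comp (T : X →ₗ[ℝ] X), key N hN k hs⟩⟩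

end Pool.Agent.Results.MP_8d41d4_an.NoncompleteKGeTwo
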